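import Pool.Agent.PFC.StmtsB2

/-!
# CHR (squad PFC, B2): the idempotents of the characters of `E`
-/

noncomputable section

namespace Pool.Agent.PFC.B2.H10

open Pool.Agent.PFC.B2

/-- the idempotent of a character, for a homomorphism from the group to the units -/
def eeF {F Γ E : Type} [Field F] [Ring Γ] [Algebra (PowerSeries F) Γ] [Group E] [Fintype E]
    (ep : E →* Γ) (θ : E →* Fˣ) : Γ :=
  ∑ e, (PowerSeries.C ((Nat.card E : F)⁻¹ * ((θ e : Fˣ) : F)⁻¹) : PowerSeries F) • ep e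

theorem eeF_idem {F Γ E : Type} [Field F] [Ring Γ] [Algebra (PowerSeries F) Γ] [Group E]
    [Fintype E] (ep : E →* Γ) (θ : E →* Fˣ) (hE : (Nat.card E : F) ≠ 0) :
    eeF ep θ * eeF ep θ = eeF ep θ := by
  unfold eeF
  rw [Finset.sum_mul]
  have h1 : ∀ e : E, (PowerSeries.C ((Nat.card E : F)⁻¹ * ((θ e : Fˣ) : F)⁻¹) : PowerSeries F) •
      ep e * ∑ e', (PowerSeries.C ((Nat.card E : F)⁻¹ * ((θ e' : Fˣ) : F)⁻¹) : PowerSeries F) •
        ep e' =
      (PowerSeries.C ((Nat.card E : F)⁻¹) : PowerSeries F) •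
        ∑ g, (PowerSeries.C ((Nat.card E : F)⁻¹ * ((θ g : Fˣ) : F)⁻¹) : PowerSeries F) •
          ep g := by
    intro e
    rw [Finset.mul_sum, Finset.smul_sum]
    refine Fintype.sum_bijective (fun e' => e * e') (Group.mulLeft_bijective e) _ _ ?_
    intro e'
    rw [smul_mul_smul_comm, smul_smul, ← map_mul, ← map_mul, ← map_mul]
    congr 2
    rw [map_mul, Units.val_mul, mul_inv]
    ring
  rw [Finset.sum_congr rfl fun e _ => h1 e, Finset.sum_const, Finset.card_univ,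
    ← Nat.card_eq_fintype_card, ← Nat.cast_smul_eq_nsmul (PowerSeries F), smul_smul]
  have h2 : ((Nat.card E : ℕ) : PowerSeries F) * PowerSeries.C ((Nat.card E : F)⁻¹) = 1 := by
    have h3 : ((Nat.card E : ℕ) : PowerSeries F) = PowerSeries.C ((Nat.card E : F)) := by
      rw [map_natCast]
    rw [h3, ← map_mul, mul_inv_cancel₀ hE, map_one]
  rw [h2, one_smul]

theorem ag_eeF {F Γ E : Type} [Field F] [Ring Γ] [Algebra (PowerSeries F) Γ] [Group E]
    [Fintype E] (ed : Ed F Γ E) (θ θ' : E →* Fˣ) :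
    ed.ag θ' (eeF ed.ep θ) =
      PowerSeries.C ((Nat.card E : F)⁻¹ * ∑ e : E, ((θ' e : Fˣ) : F) * ((θ e : Fˣ) : F)⁻¹) := by
  unfold eeF
  rw [map_sum, Finset.mul_sum, map_sum]
  refine Finset.sum_congr rfl fun e _ => ?_
  rw [map_smul, ed.ag_ep, smul_eq_mul, ← map_mul]
  congr 1
  ring

theorem ag_self {F Γ E : Type} [Field F] [Ring Γ] [Algebra (PowerSeries F) Γ] [Group E]
    [Fintype E] (ed : Ed F Γ E) (hE : (Nat.card E : F) ≠ 0) (θ : E →* Fˣ) :
    ed.ag θ (eeF ed.ep θ) = 1 := by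
  rw [ag_eeF]
  have h1 : ∑ e : E, ((θ e : Fˣ) : F) * ((θ e : Fˣ) : F)⁻¹ = (Nat.card E : F) := by
    rw [Finset.sum_congr rfl fun e _ => mul_inv_cancel₀ (Units.ne_zero (θ e))]
    simp
  rw [h1, inv_mul_cancel₀ hE, map_one]

theorem ag_ne {F Γ E : Type} [Field F] [Ring Γ] [Algebra (PowerSeries F) Γ] [Group E]
    [Fintype E] (ed : Ed F Γ E) (θ θ' : E →* Fˣ) (hθ : θ ≠ θ') :
    ed.ag θ' (eeF ed.ep θ) = 0 := by
  rw [ag_eeF]
  have h1 : ∑ e : E, ((θ' e : Fˣ) : F) * ((θ e : Fˣ) : F)⁻¹ = 0 := by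
    have h2 := sum_hom_units_eq_zero (R := F) ((Units.coeHom F).comp (θ' * θ⁻¹)) (by
      intro h3
      apply hθ
      ext e
      have h4 := DFunLike.congr_fun h3 e
      have h5 : ((θ' e : Fˣ) : F) * (((θ e)⁻¹ : Fˣ) : F) = 1 := h4
      have h6 : θ' e * (θ e)⁻¹ = 1 := Units.ext h5
      rw [(mul_inv_eq_one.1 h6)])
    refine Eq.trans (Finset.sum_congr rfl fun e _ => ?_) h2
    rw [← Units.val_inv_eq_inv_val]
    rfl
  rw [h1, mul_zero, map_zero]

theorem card_dual (F E : Type) [Field F] [IsAlgClosed F] [CommGroup E] [Finite E]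
    (hE : (Nat.card E : F) ≠ 0) :
    Finite (E →* Fˣ) ∧ Nat.card (E →* Fˣ) = Nat.card E := by
  have : NeZero ((Monoid.exponent E : ℕ) : F) := by
    refine ⟨fun h => hE ?_⟩
    obtain ⟨k, hk⟩ := Group.exponent_dvd_nat_card (G := E)
    rw [hk, Nat.cast_mul, h, zero_mul]
  have : HasEnoughRootsOfUnity F (Monoid.exponent E) := inferInstance
  have hcard : Nat.card (E →* Fˣ) = Nat.card E :=
    CommGroup.card_monoidHom_of_hasEnoughRootsOfUnity E F
  refine ⟨?_, hcard⟩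
  apply Nat.finite_of_card_ne_zero
  rw [hcard]
  exact Nat.card_pos.ne'

theorem chr : ChrStmt := by
  intro F Γ E _ _ _ _ iG _ ed hab hE
  have : Fintype E := Fintype.ofFinite E
  have h0 := @card_dual F E _ _ { iG with mul_comm := hab } _ hE
  exact ⟨h0.1, h0.2, eeF ed.ep, fun θ => eeF_idem ed.ep θ hE, fun θ => ag_self ed hE θ,
    fun θ θ' hθ => ag_ne ed θ θ' hθ⟩

end Pool.Agent.PFC.B2.H10
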