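import Pool.Agent.PFC.StmtsB4b

/-!
Squad PFC, row QCX of block B4b: the character of the fixed algebra if the Brauer quotient is the
group algebra, and its uniqueness.
-/

noncomputable section

namespace Pool.Agent.PFC.H10

/-- a functional which is invariant under the group kills the Brauer kernel -/
theorem kill_BK {ℓ : ℕ} [Fact ℓ.Prime] {F V M : Type} [Field F] [CharP F ℓ] [Group V] [Finite V]
    [AddCommGroup M] [Module F M] (ρ : V →* (M →ₗ[F] M)) (hV : IsPGroup ℓ V) (Q : Subgroup V)
    (b : M →ₗ[F] F) (hb : ∀ q ∈ Q, ∀ m, b (ρ q m) = b m) {m : M} (hm : m ∈ BK ρ Q) : b m = 0 := by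
  unfold BK at hm
  induction hm using Submodule.span_induction with
  | mem n hn =>
    obtain ⟨P', S, x, hlt, hS, hx, rfl⟩ := hn
    rw [map_sum, Finset.sum_congr rfl (fun y hy => hb y (hS.1 y hy) x), Finset.sum_const]
    have hP : IsPGroup ℓ Q := hV.to_subgroup Q
    have hdvd : ℓ ∣ S.card := by
      have hc := card_tv P' Q hlt.le S hS
      obtain ⟨k, hk⟩ := (IsPGroup.iff_card).1 hP
      have hdiv : S.card ∣ ℓ ^ k := ⟨_, by rw [← hk]; exact hc.symm⟩
      obtain ⟨j, -, hj⟩ := (Nat.dvd_prime_pow (Fact.out : ℓ.Prime)).1 hdiv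
      rcases Nat.eq_zero_or_pos j with h0 | h0
      · exfalso
        rw [h0, pow_zero] at hj
        rw [hj, one_mul] at hc
        exact hlt.ne (Subgroup.eq_of_le_of_card_ge hlt.le hc.ge)
      · rw [hj]
        exact dvd_pow_self ℓ h0.ne'
    obtain ⟨d, hd⟩ := hdvd
    rw [hd, mul_smul, nsmul_eq_mul, CharP.cast_eq_zero, zero_mul]
  | zero => exact map_zero _
  | add a c _ _ ha hc => rw [map_add, ha, hc, add_zero]
  | smul r a _ ha => rw [map_smul, ha, smul_zero]

/-- an element of `ℓ`-power order of a field of characteristic `ℓ` is one -/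
theorem eq_one_of_pow {ℓ : ℕ} [Fact ℓ.Prime] {F : Type} [Field F] [CharP F ℓ] (k : ℕ) (a : F)
    (h : a ^ ℓ ^ k = 1) : a = 1 := by
  have : ExpChar F ℓ := ExpChar.prime (Fact.out : ℓ.Prime)
  have h1 : (a - 1) ^ ℓ ^ k = 0 := by
    rw [sub_pow_expChar_pow, h, one_pow, sub_self]
  exact sub_eq_zero.1 (pow_eq_zero_iff (pow_pos (Fact.out : ℓ.Prime).pos k).ne' |>.1 h1)

theorem cj_apply {F V A : Type} [Field F] [Group V] [Ring A] [Algebra F A] (α : V →* A) (u : V)
    (a : A) : cj F α u a = α u * a * α u⁻¹ := by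
  change α u * (a * α u⁻¹) = _
  rw [mul_assoc]

theorem fx_mul {F V A : Type} [Field F] [Group V] [Ring A] [Algebra F A] (α : V →* A)
    {x y : A} (hx : x ∈ Fx (cj F α) ⊤) (hy : y ∈ Fx (cj F α) ⊤) : x * y ∈ Fx (cj F α) ⊤ := by
  intro u hu
  have h1 := hx u hu
  have h2 := hy u hu
  rw [cj_apply] at h1 h2 ⊢
  have h3 : α u⁻¹ * α u = 1 := by rw [← map_mul, inv_mul_cancel, map_one]
  calc α u * (x * y) * α u⁻¹ = (α u * x * (α u⁻¹ * α u)) * y * α u⁻¹ := by
        rw [h3]
        simp only [mul_assoc, mul_one]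
    _ = (α u * x * α u⁻¹) * (α u * y * α u⁻¹) := by simp only [mul_assoc]
    _ = x * y := by rw [h1, h2]

theorem qcx (hQ : QkeStmt) : QcxStmt := by
  classical
  intro ℓ _ F V _ _ _ _ X hV hB
  obtain ⟨β, s, hβ⟩ := hB
  let aug : MonoidAlgebra F V →ₐ[F] F := MonoidAlgebra.lift F F V 1
  have haug : ∀ v : V, aug (MonoidAlgebra.of F V v) = 1 := by
    intro v
    change MonoidAlgebra.lift F F V 1 (MonoidAlgebra.of F V v) = 1
    rw [MonoidAlgebra.lift_of]
    rfl
  let aug' : (IA.gr F V).A →ₗ[F] F := aug.toLinearMap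
  have haug1 : aug' 1 = 1 := map_one aug
  have haugm : ∀ x y : (IA.gr F V).A, aug' (x * y) = aug' x * aug' y := fun x y => map_mul aug x y
  have haugι : ∀ v : V, aug' ((IA.gr F V).ι v) = 1 := haug
  have hβ1 : β 1 = 1 := by
    have h := hβ.cov 1
    rw [X.ι.map_one, (IA.gr F V).ι.map_one] at h
    exact h
  constructor
  · refine ⟨aug' ∘ₗ β, ?_, ?_, ?_⟩
    · rw [LinearMap.comp_apply, hβ1, haug1]
    · intro x hx y hy
      rw [LinearMap.comp_apply, LinearMap.comp_apply, LinearMap.comp_apply, hβ.mul x hx y hy, haugm]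
    · intro v a
      rw [LinearMap.comp_apply, LinearMap.comp_apply, hβ.eb, cj_apply, haugm, haugm, haugι, haugι,
        one_mul, mul_one]
  · -- uniqueness
    obtain ⟨hs1, hs2, hs3⟩ := hQ ℓ F V X.A (IA.gr F V).A (cj F X.ι) (cj F (IA.gr F V).ι) ⊤ β s hV
      hβ.toBrS
    have key : ∀ b : X.A →ₗ[F] F, Chr X b → ∀ x ∈ Fx (cj F X.ι) ⊤, b x = aug' (β x) := by
      intro b hb x hx
      have hk : ∀ m ∈ BK (cj F X.ι) ⊤, b m = 0 := fun m hm =>
        kill_BK (cj F X.ι) hV ⊤ b (fun q _ m => hb.inv q m) hm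
      have h1 : b x = b (s (β x)) := by
        have := hk _ (hs3 x hx)
        rw [map_sub] at this
        exact sub_eq_zero.1 this
      have hmul : ∀ y y' : (IA.gr F V).A, b (s (y * y')) = b (s y) * b (s y') := by
        intro y y'
        have h2 : s y * s y' - s (y * y') ∈ BK (cj F X.ι) ⊤ := by
          have h3 : s y * s y' - s (y * y') ∈ Fx (cj F X.ι) ⊤ :=
            Submodule.sub_mem _ (fx_mul X.ι (hs1 y) (hs1 y')) (hs1 _)
          refine (hs2 _ h3).1 ?_
          rw [map_sub, hβ.mul _ (hs1 y) _ (hs1 y'), hβ.bs, hβ.bs, hβ.bs, sub_self]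
        have h4 := hk _ h2
        rw [map_sub, hb.mul _ (hs1 y) _ (hs1 y')] at h4
        exact (sub_eq_zero.1 h4).symm
      have hone : b (s 1) = 1 := by
        have h1F : (1 : X.A) ∈ Fx (cj F X.ι) ⊤ := by
          intro u _
          rw [cj_apply, mul_one, ← map_mul, mul_inv_cancel, map_one]
        have h2 : (1 : X.A) - s 1 ∈ BK (cj F X.ι) ⊤ := by
          refine (hs2 _ (Submodule.sub_mem _ h1F (hs1 1))).1 ?_
          rw [map_sub, hβ1, hβ.bs, sub_self]
        have h3 := hk _ h2
        rw [map_sub, hb.one] at h3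
        exact (sub_eq_zero.1 h3).symm
      have hv : ∀ v : V, b (s ((IA.gr F V).ι v)) = 1 := by
        intro v
        have hpow : ∀ n : ℕ, b (s ((IA.gr F V).ι (v ^ n))) = b (s ((IA.gr F V).ι v)) ^ n := by
          intro n
          induction n with
          | zero => rw [pow_zero, pow_zero, map_one, hone]
          | succ n ih => rw [pow_succ, map_mul, hmul, ih, pow_succ]
        obtain ⟨k, hk'⟩ := hV v
        refine eq_one_of_pow (ℓ := ℓ) k _ ?_
        rw [← hpow, hk', map_one, hone]
      have hall : ∀ y : MonoidAlgebra F V, b (s y) = aug y := by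
        intro y
        refine MonoidAlgebra.induction_on (motive := fun y : MonoidAlgebra F V => b (s y) = aug y) y
          ?_ ?_ ?_
        · intro v
          rw [haug]
          exact hv v
        · intro x y hx hy
          have h5 : b (s (x + y)) = b (s x) + b (s y) := by
            rw [← map_add b]
            exact congrArg b (map_add s x y)
          rw [h5, hx, hy, map_add]
        · intro r x hx
          have h5 : b (s (r • x)) = r * b (s x) := by
            rw [← smul_eq_mul, ← map_smul b]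
            exact congrArg b (map_smul s r x)
          rw [h5, hx, map_smul, smul_eq_mul]
      rw [h1]
      exact hall (β x)
    intro b b' hb hb' x hx
    rw [key b hb x hx, key b' hb' x hx]

end Pool.Agent.PFC.H10
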